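import Pool.Agent.N70.ES.Stm2

/-!
Project ES (helper70): GD, doubling with a character.
-/

set_option autoImplicit false

namespace Pool.Agent.N878.ES

open Pool.Agent.H391R2 Pool.Agent.H391R2.T4 Pool.Agent.Y793 Pool.Agent.N70.ES

/-- Two copies of `Fin n`. -/
noncomputable def eq2 (n : ℕ) : Fin n × ℤˣ ≃ Fin (2 * n) :=
  Fintype.equivFinOfCardEq (by
    rw [Fintype.card_prod, Fintype.card_fin, Fintype.card_units_int, mul_comm])

/-- A permutation on both copies, and the exchange of the copies by a sign. -/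
def pr {n : ℕ} (σ : Equiv.Perm (Fin n)) (ε : ℤˣ) : Equiv.Perm (Fin n × ℤˣ) :=
  Equiv.prodCongr σ (Equiv.mulLeft ε)

theorem pr_apply {n : ℕ} (σ : Equiv.Perm (Fin n)) (ε : ℤˣ) (p : Fin n × ℤˣ) :
    pr σ ε p = (σ p.1, ε * p.2) := rfl

theorem pr_mul {n : ℕ} (σ σ' : Equiv.Perm (Fin n)) (ε ε' : ℤˣ) :
    pr (σ * σ') (ε * ε') = pr σ ε * pr σ' ε' := by
  apply Equiv.ext
  intro p
  rw [Equiv.Perm.mul_apply, pr_apply, pr_apply, pr_apply, Equiv.Perm.mul_apply, mul_assoc]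

theorem pr_one {n : ℕ} : pr (1 : Equiv.Perm (Fin n)) 1 = 1 := by
  apply Equiv.ext
  intro p
  rw [pr_apply, one_mul]
  rfl

theorem sign_mulLeft (ε : ℤˣ) : Equiv.Perm.sign (Equiv.mulLeft ε) = ε := by
  rcases Int.units_eq_one_or ε with rfl | rfl
  · decide
  · decide

theorem sign_pr {n : ℕ} (σ : Equiv.Perm (Fin n)) (ε : ℤˣ) :
    Equiv.Perm.sign (pr σ ε) = ε ^ n := by
  have e : pr σ ε = Equiv.prodCongrLeft (fun _ : ℤˣ => σ) *
      Equiv.prodCongrRight (fun _ : Fin n => (Equiv.mulLeft ε : Equiv.Perm ℤˣ)) := by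
    apply Equiv.ext
    intro p
    rfl
  rw [e, Equiv.Perm.sign_mul, Equiv.Perm.sign_prodCongrLeft, Equiv.Perm.sign_prodCongrRight,
    Finset.prod_const, Finset.prod_const, Finset.card_univ, Finset.card_univ,
    Fintype.card_units_int, Int.units_sq, one_mul, Fintype.card_fin, sign_mulLeft]

/-- The same on `Fin (2 * n)`. -/
noncomputable def dp {n : ℕ} (σ : Equiv.Perm (Fin n)) (ε : ℤˣ) : Equiv.Perm (Fin (2 * n)) :=
  (eq2 n).permCongr (pr σ ε)

theorem dp_apply {n : ℕ} (σ : Equiv.Perm (Fin n)) (ε : ℤˣ) (p : Fin n × ℤˣ) :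
    dp σ ε (eq2 n p) = eq2 n (pr σ ε p) := by
  simp [dp, Equiv.permCongr_apply]

theorem dp_mul {n : ℕ} (σ σ' : Equiv.Perm (Fin n)) (ε ε' : ℤˣ) :
    dp (σ * σ') (ε * ε') = dp σ ε * dp σ' ε' := by
  apply Equiv.ext
  intro j
  obtain ⟨p, rfl⟩ := (eq2 n).surjective j
  rw [Equiv.Perm.mul_apply, dp_apply, dp_apply, dp_apply, pr_mul, Equiv.Perm.mul_apply]

theorem dp_one {n : ℕ} : dp (1 : Equiv.Perm (Fin n)) 1 = 1 := by
  apply Equiv.ext
  intro j
  obtain ⟨p, rfl⟩ := (eq2 n).surjective j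
  rw [dp_apply, pr_one]
  rfl

theorem dp_inv {n : ℕ} (σ : Equiv.Perm (Fin n)) (ε : ℤˣ) : (dp σ ε)⁻¹ = dp σ⁻¹ ε⁻¹ := by
  rw [inv_eq_iff_mul_eq_one, ← dp_mul, mul_inv_cancel, mul_inv_cancel, dp_one]

theorem sign_dp {n : ℕ} (σ : Equiv.Perm (Fin n)) (ε : ℤˣ) :
    Equiv.Perm.sign (dp σ ε) = ε ^ n := by
  unfold dp
  rw [Equiv.Perm.sign_permCongr, sign_pr]

/-- Doubling of an element of the wreath product. -/
noncomputable def dbl {B : Type} [Group B] {n : ℕ} (x : Wr B n) (ε : ℤˣ) : Wr B (2 * n) :=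
  ⟨fun j => x.left ((eq2 n).symm j).1, dp x.right ε⟩

theorem dbl_left {B : Type} [Group B] {n : ℕ} (x : Wr B n) (ε : ℤˣ) (p : Fin n × ℤˣ) :
    (dbl x ε).left (eq2 n p) = x.left p.1 := by
  simp [dbl]

theorem dbl_mul {B : Type} [Group B] {n : ℕ} (x x' : Wr B n) (ε ε' : ℤˣ) :
    dbl (x * x') (ε * ε') = dbl x ε * dbl x' ε' := by
  apply SemidirectProduct.ext
  · funext j
    obtain ⟨p, rfl⟩ := (eq2 n).surjective j
    rw [wr_mul_left, dbl_left, dbl_left]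
    change _ = x.left p.1 * (dbl x' ε').left ((dp x.right ε)⁻¹ (eq2 n p))
    rw [dp_inv, dp_apply, dbl_left, wr_mul_left, pr_apply]
  · exact dp_mul _ _ _ _

theorem dbl_one {B : Type} [Group B] {n : ℕ} : dbl (1 : Wr B n) 1 = 1 := by
  apply SemidirectProduct.ext
  · funext j
    rfl
  · exact dp_one

theorem t_gd : Pool.Agent.N70.ES.St_gd := by
  intro H B _ _ a χ δ n ⟨s, hs⟩
  have hh : ∀ h, (s h).1.2 = h := hs
  refine ⟨{ toFun := fun h => ⟨(dbl (s h).1.1 (χ h), h), ?_⟩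
            map_one' := ?_
            map_mul' := ?_ }, fun h => rfl⟩
  · have h1 := Subgroup.mem_inf.1 (s h).2
    have h4 : ∀ i, a ((s h).1.1.left i) = (s h).1.2 := h1.1
    refine Subgroup.mem_inf.2 ⟨?_, ?_⟩
    · intro j
      change a ((dbl (s h).1.1 (χ h)).left j) = h
      obtain ⟨p, rfl⟩ := (eq2 n).surjective j
      rw [dbl_left, h4, hh]
    · change Equiv.Perm.sign (dp (s h).1.1.right (χ h)) = (χ ^ n) h
      rw [sign_dp, MonoidHom.pow_apply]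
  · apply Subtype.ext
    refine Prod.ext ?_ rfl
    change dbl (s 1).1.1 (χ 1) = 1
    rw [map_one, map_one]
    exact dbl_one
  · intro z w
    apply Subtype.ext
    refine Prod.ext ?_ rfl
    change dbl (s (z * w)).1.1 (χ (z * w)) = dbl (s z).1.1 (χ z) * dbl (s w).1.1 (χ w)
    rw [map_mul, map_mul]
    exact dbl_mul _ _ _ _

end Pool.Agent.N878.ES
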